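import Pool.Agent.H889Z.TarCost

set_option autoImplicit false

namespace Pool.Agent.Results.MP_354e85_al.ResFinSix

open Pool.Agent.H718Z.CostDefs

/-- Every finitely generated residually finite group of cost greater than 1 has a paradoxical
decomposition with at most 6 pieces. -/
theorem result : ∀ (G : Type) [Group G], Group.FG G → Group.ResiduallyFinite G →
    1 < groupCost G →
    ∃ m n : ℕ, m + n ≤ 6 ∧
      ∃ (A : Fin m → Set G) (B : Fin n → Set G) (g : Fin m → G) (h : Fin n → G),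
        (∀ x : G, ∃! p : Fin m ⊕ Fin n, x ∈ Sum.elim A B p) ∧
        (∀ x : G, ∃! i : Fin m, (g i)⁻¹ * x ∈ A i) ∧
        (∀ x : G, ∃! j : Fin n, (h j)⁻¹ * x ∈ B j) :=
  fun _ _ hG _ hc => ⟨3, 3, le_rfl, Pool.Agent.H889Z.Tar.six hG hc⟩

end Pool.Agent.Results.MP_354e85_al.ResFinSix
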